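import Mathlib

/-! Halfspaces of the Boolean cube are not uniformly bi-Lipschitz transitive. -/

namespace Pool.Agent.Results.MP_ca8ef0_co.NotTransitive

open Finset

/-- The halfspace of the cube `{-1,1}^n` determined by `a₀, a₁, …, aₙ`. -/
def half {n : ℕ} (a₀ : ℝ) (a : Fin n → ℝ) : Set (Fin n → ℤˣ) :=
  {x | 0 ≤ a₀ + ∑ i, a i * ((x i : ℤ) : ℝ)}

lemma one_le (x : ℤˣ) : ((x : ℤ) : ℝ) ≤ 1 := by
  rcases Int.units_eq_one_or x with rfl | rfl <;> norm_num

theorem result (C : ℝ) (_hC : 1 ≤ C) : ∃ (n : ℕ) (a₀ : ℝ) (a : Fin n → ℝ) (x y : half a₀ a),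
    ¬ ∃ f : half a₀ a ≃ half a₀ a, f x = y ∧ f y = x ∧ ∀ z w, z ≠ w →
      1 / C ≤ (hammingDist (f z).1 (f w).1 : ℝ) / hammingDist z.1 w.1 ∧
      (hammingDist (f z).1 (f w).1 : ℝ) / hammingDist z.1 w.1 ≤ C := by
  obtain ⟨k, hk⟩ := exists_nat_ge C
  let m := 2 ^ k + 1
  let a : Fin (k + m) → ℝ := Fin.addCases (fun _ => 1) fun _ => k
  have mem : ∀ x : Fin (k + m) → ℤˣ, x ∈ half (k - m * k) a ↔
      ∑ i : Fin k, (1 - ((x (i.castAdd m) : ℤ) : ℝ)) +
        k * ∑ j : Fin m, (1 - ((x (j.natAdd k) : ℤ) : ℝ)) ≤ 2 * k := by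
    intro x
    simp only [half, Set.mem_setOf_eq, Fin.sum_univ_add, a, Fin.addCases_left, Fin.addCases_right,
      sum_sub_distrib, ← mul_sum, sum_const, card_univ, Fintype.card_fin, nsmul_eq_mul]
    constructor <;> intro h <;> linarith
  have hk0 : (0 : ℝ) ≤ k := k.cast_nonneg
  have ne : ∀ (i : Fin k) (j : Fin m), i.castAdd m ≠ j.natAdd k := fun i j e => by
    have := congrArg Fin.val e
    simp at this; omega
  let p : Fin m → half (k - m * k) a := fun j => ⟨Function.update 1 (j.natAdd k) (-1), by
    rw [mem, sum_eq_zero fun i _ => by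
      rw [Function.update_of_ne (ne _ _)]; simp, sum_eq_single j]
    · simp; linarith
    · intro b _ hb
      rw [Function.update_of_ne (by simpa using hb)]; simp
    · simp⟩
  refine ⟨k + m, k - m * k, a, ⟨1, by simp [mem]⟩,
    ⟨Fin.addCases (fun _ => -1) fun _ => 1, by simp [mem]; linarith⟩, ?_⟩
  rintro ⟨f, hx, -, h⟩
  have key : ∀ j i, (f (p j)).1 (Fin.natAdd k i) = 1 := by
    intro j i
    by_contra hc
    have hc := (Int.units_eq_one_or _).resolve_left hc
    have d1 : hammingDist (p j).1 1 = 1 := by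
      rw [hammingDist, card_eq_one]
      refine ⟨j.natAdd k, ?_⟩
      ext t
      by_cases ht : t = j.natAdd k <;> simp [p, ht]
    have d2 := (h (p j) ⟨1, by simp [mem]⟩ (fun e => by
      rw [e] at d1; simp at d1)).2
    rw [d1, hx, Nat.cast_one, div_one] at d2
    have hm := (mem _).1 (f (p j)).2
    have s2 := single_le_sum (f := fun j' : Fin m => 1 - (((f (p j)).1 (j'.natAdd k) : ℤ) : ℝ))
      (fun _ _ => sub_nonneg.2 (one_le _)) (mem_univ i)
    simp only [hc] at s2
    have s3 : ∀ t : Fin k, (f (p j)).1 (t.castAdd m) = 1 := by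
      intro t
      by_contra ht
      have ht := (Int.units_eq_one_or _).resolve_left ht
      have s1 := single_le_sum (f := fun t : Fin k => 1 - (((f (p j)).1 (t.castAdd m) : ℤ) : ℝ))
        (fun _ _ => sub_nonneg.2 (one_le _)) (mem_univ t)
      simp only [ht] at s1
      push_cast at s1 s2
      nlinarith
    have : k + 1 ≤ hammingDist (f (p j)).1 (Fin.addCases (fun _ => -1) fun _ => 1) := by
      have := card_le_card (s := insert (i.natAdd k) (univ.map (Fin.castAddEmb m)))
        (t := univ.filter fun t => (f (p j)).1 t ≠ Fin.addCases (fun _ => -1) (fun _ => 1) t) (by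
          intro t ht
          simp only [mem_insert, mem_map, mem_univ, true_and] at ht
          rcases ht with rfl | ⟨t, rfl⟩ <;> simp [hc, s3])
      rwa [card_insert_of_notMem (by simp [ne]), card_map, card_univ,
        Fintype.card_fin] at this
    have := (Nat.cast_le (α := ℝ)).2 this
    push_cast at this d2
    linarith
  have inj : Function.Injective fun j (t : Fin k) => (f (p j)).1 (t.castAdd m) := by
    intro j j' e
    have : f (p j) = f (p j') := Subtype.ext (funext fun t => by
      induction t using Fin.addCases with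
      | left t => exact congrFun e t
      | right t => rw [key, key])
    have := congrFun (congrArg Subtype.val (f.injective this)) (j.natAdd k)
    by_contra hj
    simp [p, Function.update_of_ne, hj] at this
  have := Fintype.card_le_of_injective _ inj
  simp [m] at this

end Pool.Agent.Results.MP_ca8ef0_co.NotTransitive
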